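import Pool.Agent.helper43.DHB.SpecB

/-! # bCNT (helper18): facts on configurations -/

set_option autoImplicit false

open Filter Topology MeasureTheory
open scoped commutatorElement

namespace Pool.Agent.helper90.DH

open Pool.Agent.helper64.D2

theorem bCNT : bCNT_stmt := by
  intro q S k
  refine ⟨?_, ?_⟩
  · have h : Fintype.card (Cfg q S k) = (2 ^ (S + 1) + 1) ^ k * ((k + 1) ^ (q * k)) := by
      simp only [Cfg, Fintype.card_prod, Fintype.card_fun, Fintype.card_fin, Fintype.card_option]
      rw [← pow_mul, mul_comm k q]
    rw [h]
    push_cast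
    exact le_rfl
  · intro z
    refine ⟨?_, ?_⟩
    · intro a
      unfold cpt
      split_ifs with h
      · exact ⟨le_max_left _ _, max_le (by norm_num) (min_le_left _ _)⟩
      · constructor <;> norm_num
    · intro e he
      unfold ced at he
      rw [Finset.mem_image] at he
      obtain ⟨e', -, rfl⟩ := he
      exact ⟨e'.1.2, e'.2.1.2, e'.2.2.2⟩

end Pool.Agent.helper90.DH
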