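import Pool.Agent.helper43.DHB.SpecB

/-! # bFGQ (helper18): probability of the failure of the gap of a family -/

set_option autoImplicit false

open Filter Topology MeasureTheory
open scoped commutatorElement

namespace Pool.Agent.helper90.DH

open Pool.Agent.helper64.D2

theorem bFGQ_dg {q L N : ℕ} (w : Fin q × Fin L → Fin N) (i l : ℕ) : dg w i l ≤ N := by
  unfold dg
  split_ifs with h
  · exact (w (⟨i, h.1⟩, ⟨l, h.2⟩)).2.le
  · exact Nat.zero_le _

theorem bFGQ_NM {a b : ℝ} {C : ℝ → ℝ} (hab : a ≤ b) (h : NM a C) : NM b C :=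
  ⟨h.cd, fun x => (h.sl x).trans hab, fun x => (h.ds x).trans hab⟩

/-- the embedding of the coordinates of the family. -/
def bFGQ_e (q m φ u : ℕ) (e : {i // i ∈ fam q m φ} × Fin (2 ^ u)) : Fin q × Fin (2 ^ u) :=
  (⟨e.1.1, Finset.mem_range.1 (Finset.mem_filter.1 e.1.2).1⟩, e.2)

theorem bFGQ_einj (q m φ u : ℕ) : Function.Injective (bFGQ_e q m φ u) := by
  rintro ⟨⟨i, hi⟩, l⟩ ⟨⟨i', hi'⟩, l'⟩ h
  unfold bFGQ_e at h
  rw [Prod.mk.injEq] at h
  obtain ⟨h1, h2⟩ := h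
  have h3 : i = i' := congrArg Fin.val h1
  subst h3
  have h4 : l = l' := h2
  subst h4
  rfl

/-- the event that the centred part of parity `par` is large. -/
def bFGQ_A (β : ℝ → ℝ) (q m φ u s N par : ℕ) (P E : ℕ → ℝ → ℝ) (τ lam : ℝ) : Set (Fin q × Fin (2 ^ u) → Fin N) :=
  {w | ∃ f : ℝ → ℝ, PA (s + 1) f ∧ Su f ∧ (∀ x, Es s f x = 0) ∧ lam ^ 2 * nsq f <
    nsq (fun x => (∑ i : {i // i ∈ fam q m φ}, zc (fun i : {i // i ∈ fam q m φ} => P i) (fun i : {i // i ∈ fam q m φ} => Bfr β u N par τ E (dg w) i) u N par τ f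
      (fun e => w (bFGQ_e q m φ u e)) i x) / Fintype.card {i // i ∈ fam q m φ})}

open Classical in
theorem bFGQ_mix (β : ℝ → ℝ) (q m φ u s N par : ℕ) (P E : ℕ → ℝ → ℝ) (τ lam : ℝ) (S : Set (Fin q × Fin (2 ^ u)))
    (hS : ∀ j : Fin q × Fin (2 ^ u), j ∈ S ↔ ((j.1 : ℕ) % m = φ ∧ (j.2 : ℕ) % 2 = par)) (ω₀ ω : Fin q × Fin (2 ^ u) → Fin N) :
    ((fun j => if j ∈ S then ω j else ω₀ j) ∈ bFGQ_A β q m φ u s N par P E τ lam) ↔
    (fun e => ω (bFGQ_e q m φ u e)) ∈ {ω' : {i // i ∈ fam q m φ} × Fin (2 ^ u) → Fin N | ∃ f : ℝ → ℝ, PA (s + 1) f ∧ Su f ∧ (∀ x, Es s f x = 0) ∧ lam ^ 2 * nsq f <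
    nsq (fun x => (∑ i : {i // i ∈ fam q m φ}, zc (fun i : {i // i ∈ fam q m φ} => P i) (fun i : {i // i ∈ fam q m φ} => Bfr β u N par τ E (dg ω₀) i) u N par τ f
      ω' i x) / Fintype.card {i // i ∈ fam q m φ})} := by
  set mix : Fin q × Fin (2 ^ u) → Fin N := fun j => if j ∈ S then ω j else ω₀ j with hmix
  have h1 : ∀ i : ℕ, Bfr β u N par τ E (dg mix) i = Bfr β u N par τ E (dg ω₀) i := by
    intro i
    funext x
    unfold Bfr
    have e : (fun l => if l % 2 = par then 0 else dg mix i l) = fun l => if l % 2 = par then 0 else dg ω₀ i l := by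
      funext l
      by_cases hl : l % 2 = par
      · rw [if_pos hl, if_pos hl]
      · rw [if_neg hl, if_neg hl]
        unfold dg
        by_cases h : i < q ∧ l < 2 ^ u
        · rw [dif_pos h, dif_pos h, hmix]
          have hn : ¬ ((⟨i, h.1⟩, ⟨l, h.2⟩) : Fin q × Fin (2 ^ u)) ∈ S := by
            rw [hS]
            rintro ⟨-, h2⟩
            exact hl h2
          simp only [if_neg hn]
        · rw [dif_neg h, dif_neg h]
    rw [e]
  have h2 : ∀ (B : {i // i ∈ fam q m φ} → ℝ → ℝ) (f : ℝ → ℝ) (i : {i // i ∈ fam q m φ}) (x : ℝ),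
      zc (fun i : {i // i ∈ fam q m φ} => P i) B u N par τ f (fun e => mix (bFGQ_e q m φ u e)) i x =
      zc (fun i : {i // i ∈ fam q m φ} => P i) B u N par τ f (fun e => ω (bFGQ_e q m φ u e)) i x := by
    intro B f i x
    unfold zc
    refine Finset.sum_congr rfl fun l _ => ?_
    by_cases h : (l : ℕ) % 2 = par ∧ x ∈ cell u ((l : ℕ) : ℤ)
    · rw [if_pos h, if_pos h]
      have hm : mix (bFGQ_e q m φ u (i, l)) = ω (bFGQ_e q m φ u (i, l)) := by
        rw [hmix]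
        have hp : bFGQ_e q m φ u (i, l) ∈ S := (hS _).2 ⟨(Finset.mem_filter.1 i.2).2, h.1⟩
        simp only [if_pos hp]
      have hm' : (fun e => mix (bFGQ_e q m φ u e)) (i, l) = (fun e => ω (bFGQ_e q m φ u e)) (i, l) := hm
      rw [hm']
    · rw [if_neg h, if_neg h]
  unfold bFGQ_A
  simp only [Set.mem_ofPred_eq, h1, h2]

theorem bFGQ_par (hHGP : bHGP_stmt) (hSMS : bSMS_stmt) (hRSM : bRSM_stmt) (hMRG : bMRG_stmt) (hNMF : bNMF_stmt) (hWDF : bWDF_stmt) :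
    ∀ β : ℝ → ℝ, BUMP β → ∃ Kb K : ℝ, 1 ≤ Kb ∧ 1 ≤ K ∧ ∀ (q m φ u s N par : ℕ) (P E : ℕ → ℝ → ℝ) (τ th b ks : ℝ),
    (∀ i, NM (1 / 1000) (P i) ∧ (∀ x y, |deriv (P i) x - deriv (P i) y| ≤ |x - y|) ∧ NM (1 / 1000) (E i)) → 0 < τ → Kb * τ * 2 ^ u ≤ 1 / 1000 → 8 ≤ u → u ≤ s → 0 < N →
    0 < b → b ≤ 1 → 0 ≤ th → 0 ≤ ks → (fam q m φ).Nonempty → 54 * th * q ≤ b ^ 2 * (fam q m φ).card →
    (∀ k : ℕ, (k : ℝ) < ks → SPRf q (fun i x => P i (E i x)) u k th 4) →
    K * Real.log ((fam q m φ).card + 1) ≤ b ^ 2 * (fam q m φ).card → K * s * Real.log (2 / b) ≤ b ^ 2 * (fam q m φ).card * ks →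
    bpr (bFGQ_A β q m φ u s N par P E τ (K * b * Real.log (2 / b))) ≤ (1 / 2) ^ (4 * s) := by
  intro β hβ
  obtain ⟨K, hK, HG⟩ := hHGP
  obtain ⟨Kb, hKb, HW⟩ := hWDF β hβ
  refine ⟨Kb, K, hKb, hK, ?_⟩
  intro q m φ u s N par P E τ th b ks hPE hτ hKτ hu hus hN hb0 hb1 hth hks hne h54 hSP hlog1 hlog2
  obtain ⟨hN1, hN2, hN3, hN4⟩ := hNMF
  have hpow : (256 : ℝ) ≤ 2 ^ u := by
    have : (2 : ℝ) ^ 8 ≤ 2 ^ u := pow_le_pow_right₀ (by norm_num) hu
    norm_num at this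
    exact this
  have hpos : (0 : ℝ) < 2 ^ u := by positivity
  have hτ1 : τ * 2 ^ u ≤ 1 / 1000 := by
    refine le_trans ?_ hKτ
    have : 0 ≤ τ * 2 ^ u := by positivity
    nlinarith
  have hτ2 : τ ≤ 1 / (100 * 2 ^ u) := by
    rw [le_div_iff₀ (by positivity)]
    nlinarith
  have hτ3 : 4 * τ ≤ 1 / 2 ^ u := by
    rw [le_div_iff₀ hpos]
    nlinarith
  have hτ4 : τ ≤ 1 / 100000 := by
    have : τ * 256 ≤ τ * 2 ^ u := mul_le_mul_of_nonneg_left hpow hτ.le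
    linarith
  have : Nonempty (Fin N) := ⟨⟨0, hN⟩⟩
  have : Nonempty {i // i ∈ fam q m φ} := ⟨⟨hne.choose, hne.choose_spec⟩⟩
  classical
  refine hRSM (Fin q × Fin (2 ^ u)) (Fin N) {j | (j.1 : ℕ) % m = φ ∧ (j.2 : ℕ) % 2 = par} _ _ ?_
  intro ω₀
  have hset := bFGQ_mix β q m φ u s N par P E τ (K * b * Real.log (2 / b)) {j | (j.1 : ℕ) % m = φ ∧ (j.2 : ℕ) % 2 = par} (fun j => Iff.rfl) ω₀
  have hdig : ∀ i l, (fun l => if l % 2 = par then 0 else dg ω₀ i l) l ≤ N := by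
    intro i l
    by_cases h : l % 2 = par
    · simp only [if_pos h]
      exact Nat.zero_le _
    · simp only [if_neg h]
      exact bFGQ_dg _ _ _
  have hB : ∀ i, NM (1 / 100) (Bfr β u N par τ E (dg ω₀) i) ∧ ∀ x, |P i (Bfr β u N par τ E (dg ω₀) i x) - P i (E i x)| ≤ 1 / 2 ^ u := by
    intro i
    obtain ⟨hW1, hW2, hW3, -, -⟩ := HW u N τ (fun l => if l % 2 = par then 0 else dg ω₀ i l) (by omega) hN hτ.le (hdig i)
    have hEi := (hPE i).2.2
    refine ⟨⟨?_, ?_, ?_⟩, ?_⟩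
    · exact hEi.cd.add hW1
    · intro x
      have hd : deriv (Bfr β u N par τ E (dg ω₀) i) x = deriv (E i) x + deriv (Wd β u N τ (fun l => if l % 2 = par then 0 else dg ω₀ i l)) x := by
        unfold Bfr
        exact deriv_fun_add (hEi.cd.differentiable (by norm_num) x) (hW1.differentiable (by norm_num) x)
      rw [hd]
      have h1 := hEi.sl x
      have h2 := hW3 x
      have e : deriv (E i) x + deriv (Wd β u N τ (fun l => if l % 2 = par then 0 else dg ω₀ i l)) x - 1 =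
          (deriv (E i) x - 1) + deriv (Wd β u N τ (fun l => if l % 2 = par then 0 else dg ω₀ i l)) x := by ring
      rw [e]
      refine (abs_add_le _ _).trans ?_
      linarith
    · intro x
      unfold Bfr
      have h1 := hEi.ds x
      have h2 := hW2 x
      have e : E i x + Wd β u N τ (fun l => if l % 2 = par then 0 else dg ω₀ i l) x - x =
          (E i x - x) + Wd β u N τ (fun l => if l % 2 = par then 0 else dg ω₀ i l) x := by ring
      rw [e]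
      refine (abs_add_le _ _).trans ?_
      linarith
    · intro x
      have h1 := ((hN3 (P i) (1 / 1000) (by norm_num) (hPE i).1).2.2.2 (Bfr β u N par τ E (dg ω₀) i x) (E i x)).2
      refine h1.trans ?_
      have e : Bfr β u N par τ E (dg ω₀) i x - E i x = Wd β u N τ (fun l => if l % 2 = par then 0 else dg ω₀ i l) x := by
        unfold Bfr
        ring
      rw [e]
      have h2 := hW2 x
      have h3 : (1 + 1 / 1000) * |Wd β u N τ (fun l => if l % 2 = par then 0 else dg ω₀ i l) x| ≤ 4 * τ := by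
        nlinarith [abs_nonneg (Wd β u N τ (fun l => if l % 2 = par then 0 else dg ω₀ i l) x)]
      exact h3.trans hτ3
  have hPN : ∀ i, NM (1 / 100) (P i) := fun i => bFGQ_NM (by norm_num) (hPE i).1
  have hsm := hSMS q m φ u (fun i x => P i (E i x)) P (fun i => Bfr β u N par τ E (dg ω₀) i) τ th b ks (fun i => ⟨hPN i, (hB i).1⟩) hu hτ.le hτ2 hth
    hb0.le h54 (fun i x => (hB i).2 x) hSP
  have hcard : (Fintype.card {i // i ∈ fam q m φ} : ℝ) = (fam q m φ).card := by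
    rw [Fintype.card_coe]
  have hG := HG {i // i ∈ fam q m φ} (fun i => P i) (fun i => Bfr β u N par τ E (dg ω₀) i) u s N par τ b ks (fun i => ⟨hPN i, (hB i).1⟩) hτ hτ2 hu hus hN hb0 hb1 hks
    (by
      intro S T hST
      rw [hcard]
      exact hsm S T hST) (by rw [hcard]; exact hlog1) (by rw [hcard]; exact hlog2)
  have hM := hMRG (Fin q × Fin (2 ^ u)) ({i // i ∈ fam q m φ} × Fin (2 ^ u)) (Fin N) (bFGQ_e q m φ u)
    {ω' : {i // i ∈ fam q m φ} × Fin (2 ^ u) → Fin N | ∃ f : ℝ → ℝ, PA (s + 1) f ∧ Su f ∧ (∀ x, Es s f x = 0) ∧ (K * b * Real.log (2 / b)) ^ 2 * nsq f <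
    nsq (fun x => (∑ i : {i // i ∈ fam q m φ}, zc (fun i : {i // i ∈ fam q m φ} => P i) (fun i : {i // i ∈ fam q m φ} => Bfr β u N par τ E (dg ω₀) i) u N par τ f
      ω' i x) / Fintype.card {i // i ∈ fam q m φ})} (bFGQ_einj q m φ u)
  refine le_trans (le_of_eq ?_) hG
  rw [← hM]
  congr 1
  ext ω
  exact hset ω

theorem bFGQ (hFGA : bFGA_stmt) (hHGP : bHGP_stmt) (hSMS : bSMS_stmt) (hRSM : bRSM_stmt) (hMRG : bMRG_stmt) (hPRB : bPRB_stmt)
    (hNMF : bNMF_stmt) (hWDF : bWDF_stmt) : bFGQ_stmt := by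
  intro β hβ
  obtain ⟨Kb1, K1, hKb1, hK1, H1⟩ := hFGA β hβ
  obtain ⟨Kb2, K2, hKb2, hK2, H2⟩ := bFGQ_par hHGP hSMS hRSM hMRG hNMF hWDF β hβ
  refine ⟨max Kb1 Kb2, max K1 K2, le_trans hKb1 (le_max_left _ _), le_trans hK1 (le_max_left _ _), ?_⟩
  intro q m φ u s N P E τ th b ks hPE hτ hKτ hu hus hN hN2 hb0 hb1 hth hks hne h54 hSP hlog1 hlog2
  have hpos : (0 : ℝ) < 2 ^ u := by positivity
  have hτu : 0 ≤ τ * 2 ^ u := by positivity
  have hKτ1 : Kb1 * τ * 2 ^ u ≤ 1 / 1000 := by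
    refine le_trans ?_ hKτ
    rw [mul_assoc, mul_assoc]
    exact mul_le_mul_of_nonneg_right (le_max_left _ _) hτu
  have hKτ2 : Kb2 * τ * 2 ^ u ≤ 1 / 1000 := by
    refine le_trans ?_ hKτ
    rw [mul_assoc, mul_assoc]
    exact mul_le_mul_of_nonneg_right (le_max_right _ _) hτu
  have hl0 : 0 ≤ Real.log (2 / b) := by
    apply Real.log_nonneg
    rw [le_div_iff₀ hb0]
    linarith
  have hl1 : 0 ≤ Real.log ((fam q m φ).card + 1) := by
    apply Real.log_nonneg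
    have : (0 : ℝ) ≤ (fam q m φ).card := Nat.cast_nonneg _
    linarith
  have hlog1' : K2 * Real.log ((fam q m φ).card + 1) ≤ b ^ 2 * (fam q m φ).card :=
    le_trans (mul_le_mul_of_nonneg_right (le_max_right _ _) hl1) hlog1
  have hlog2' : K2 * s * Real.log (2 / b) ≤ b ^ 2 * (fam q m φ).card * ks := by
    refine le_trans ?_ hlog2
    have hs : (0 : ℝ) ≤ s := Nat.cast_nonneg _
    exact mul_le_mul_of_nonneg_right (mul_le_mul_of_nonneg_right (le_max_right _ _) hs) hl0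
  have hp : ∀ par, bpr (bFGQ_A β q m φ u s N par P E τ (K2 * b * Real.log (2 / b))) ≤ (1 / 2) ^ (4 * s) := fun par =>
    H2 q m φ u s N par P E τ th b ks hPE hτ hKτ2 hu hus hN hb0 hb1 hth hks hne h54 hSP hlog1' hlog2'
  obtain ⟨hPm, -, -, -, hPu, -, -⟩ := hPRB
  have hlam : 0 ≤ K2 * b * Real.log (2 / b) := by positivity
  have hsub : {w : Fin q × Fin (2 ^ u) → Fin N | ¬ FGf q m φ (CMf β u N (fun _ => τ) P E (dg w)) s
      (2 * (max K1 K2 * b * Real.log (2 / b)) + max K1 K2 * (1 / (2 ^ s * τ) + τ + √(2 ^ s * τ / N)))} ⊆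
      bFGQ_A β q m φ u s N 0 P E τ (K2 * b * Real.log (2 / b)) ∪ bFGQ_A β q m φ u s N 1 P E τ (K2 * b * Real.log (2 / b)) := by
    intro w hw
    by_contra hcon
    rw [Set.mem_union, not_or] at hcon
    apply hw
    have hF := H1 q m φ u s N P E τ (K2 * b * Real.log (2 / b)) w hPE hτ hKτ1 hu hN hN2 hlam hne (by
      intro par hpar f hf1 hf2 hf3
      by_contra hc
      rw [not_le] at hc
      interval_cases par
      · exact hcon.1 ⟨f, hf1, hf2, hf3, hc⟩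
      · exact hcon.2 ⟨f, hf1, hf2, hf3, hc⟩)
    intro f hf1 hf2 hf3
    refine (hF f hf1 hf2 hf3).trans ?_
    have hn : 0 ≤ nsq f := integral_nonneg fun x => sq_nonneg _
    refine mul_le_mul_of_nonneg_right ?_ hn
    have hr : 0 ≤ 1 / (2 ^ s * τ) + τ + √(2 ^ s * τ / N) := by positivity
    have hK1' : 0 ≤ K1 := by linarith
    refine pow_le_pow_left₀ (by positivity) ?_ 2
    have h1 : K2 * b * Real.log (2 / b) ≤ max K1 K2 * b * Real.log (2 / b) :=
      mul_le_mul_of_nonneg_right (mul_le_mul_of_nonneg_right (le_max_right _ _) hb0.le) hl0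
    have h2 : K1 * (1 / (2 ^ s * τ) + τ + √(2 ^ s * τ / N)) ≤ max K1 K2 * (1 / (2 ^ s * τ) + τ + √(2 ^ s * τ / N)) :=
      mul_le_mul_of_nonneg_right (le_max_left _ _) hr
    linarith
  refine (hPm _ _ _ hsub).trans ((hPu _ _ _).trans ?_)
  have h1 := hp 0
  have h2 := hp 1
  linarith

end Pool.Agent.helper90.DH
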